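import Pool.Agent.KK.StmtsD

/-!
# Row ALF of squad KK (MP_747bc0_co): assembly of alpha
-/

set_option autoImplicit false

open scoped BigOperators

namespace Pool.Agent.KK.H83

section
variable {V : Type} [Fintype V] [DecidableEq V]

theorem p2_mono {q k : ℕ} {T : Fin q → Set (List V)} {γ γ' : ℝ} (h : γ ≤ γ')
    (hP : P2 k T γ) : P2 k T γ' := by
  unfold P2 at *
  exact hP.trans (mul_le_mul_of_nonneg_right h (by positivity))

theorem p3_mono {q k : ℕ} {H : Finset (Finset V)} {T : Fin q → Set (List V)} {γ γ' : ℝ}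
    (h : γ ≤ γ') (hP : P3 H k T γ) : P3 H k T γ' := by
  unfold P3 at *
  have hn : (0 : ℝ) ≤ Fintype.card V := by positivity
  refine le_trans ?_ (hP.trans (mul_le_mul_of_nonneg_right h (by positivity)))
  have hsub : {f : Fin (k - 1) → V | ((gn H k T f).card : ℝ) < (1 / 2 - γ') * Fintype.card V} ⊆
      {f : Fin (k - 1) → V | ((gn H k T f).card : ℝ) < (1 / 2 - γ) * Fintype.card V} := by
    intro f hf
    simp only [Set.mem_setOf_eq] at hf ⊢
    exact hf.trans_le (mul_le_mul_of_nonneg_right (by linarith) hn)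
  exact_mod_cast Set.ncard_le_ncard hsub (Set.toFinite _)

theorem closed_mono {d : ℕ} {H : Finset (Finset V)} {U : Set (Sta V d)} {ε ε' : ℝ}
    (h : ε ≤ ε') (hC : Closed H U ε) : Closed H U ε' :=
  ⟨hC.1.trans (mul_le_mul_of_nonneg_right h (by positivity)),
    hC.2.trans (mul_le_mul_of_nonneg_right h (by positivity))⟩

end

/-- The conclusion for `q` classes. -/
def Pq (d C₀ : ℕ) (γC ε μ κ : ℝ) (q : ℕ) (ε' : ℝ) (n₀ : ℕ) : Prop :=
  ∀ (V : Type) [Fintype V] [DecidableEq V] (H : Finset (Finset V))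
      (U : Fin q → Set (Sta V d)) (i₀ : Fin q), n₀ ≤ Fintype.card V → Uni H (d + 2) →
      Dirac H (d + 2) → Exch H (d + 2) μ κ →
      (∀ i, (1 / 3 : ℝ) ^ (d + 1) * (Fintype.card V : ℝ) ^ (d + 1) ≤ (U i).ncard) →
      (∀ i, Indec H (U i) ε ((1 / 3 : ℝ) ^ (d + 4))) → (∀ i, Closed H (U i) ε') →
      (∀ (f : Fin (d + 1) → V) (t t' : ZMod (d + 2)), (f, t) ∈ U i₀ → (f, t') ∈ U i₀) →
      ({g : Fin (d + 1) → V | ¬ ∃ (i : Fin q) (f : Fin (d + 1) → V) (t : ZMod (d + 2)),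
          Finset.univ.image f = Finset.univ.image g ∧ (f, t) ∈ U i}.ncard : ℝ) ≤
        ε' * (Fintype.card V : ℝ) ^ (d + 1) →
      ({e : Fin (d + 2) → V | Finset.univ.image e ∈ H ∧ ¬ ∃ (i : Fin q) (f : Fin (d + 2) → V)
          (t : ZMod (d + 2)), Finset.univ.image f = Finset.univ.image e ∧
          (Fin.init f, t) ∈ U i ∧ (Fin.tail f, t + 1) ∈ U i}.ncard : ℝ) ≤
        ε' * (Fintype.card V : ℝ) ^ (d + 2) →
      (∀ T : Fin q → Set (List V), (∀ i, ({s : Sta V d | s ∈ U i ∧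
          List.ofFn s.1 ∉ T i}.ncard : ℝ) ≤ γC * (Fintype.card V : ℝ) ^ (d + 1)) →
        ∀ i j : Fin q, (i : ℕ) + 1 = j ∨ (j : ℕ) + 1 = i →
          Cross H (d + 2) (T i) (T j) C₀ ((d + 2) * C₀ + (d + 2))) →
      Ham H (d + 2)

theorem pq_mono {d C₀ : ℕ} {γC ε μ κ : ℝ} {q : ℕ} {ε' ε'' : ℝ} {n₀ n₁ : ℕ} (h : ε'' ≤ ε')
    (hn : n₀ ≤ n₁) (hP : Pq d C₀ γC ε μ κ q ε' n₀) : Pq d C₀ γC ε μ κ q ε'' n₁ := by
  intro V _ _ H U i₀ h1 h2 h3 h4 h5 h6 h7 h8 h9 h10 h11
  exact hP V H U i₀ (hn.trans h1) h2 h3 h4 h5 h6 (fun i => closed_mono h (h7 i)) h8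
    (h9.trans (mul_le_mul_of_nonneg_right h (by positivity)))
    (h10.trans (mul_le_mul_of_nonneg_right h (by positivity))) h11

theorem beta_lt (d : ℕ) : 2 * (1 / 3 : ℝ) ^ (d + 4) < (1 / 3 : ℝ) ^ (d + 1) := by
  have h : (1 / 3 : ℝ) ^ (d + 4) = (1 / 3 : ℝ) ^ (d + 1) * (1 / 27) := by
    rw [show d + 4 = (d + 1) + 3 by ring, pow_add]; norm_num
  rw [h]
  have : (0 : ℝ) < (1 / 3 : ℝ) ^ (d + 1) := by positivity
  linarith

theorem beta_lt2 (d : ℕ) : 2 * (1 / 3 : ℝ) ^ (d + 4) < (1 / 2 : ℝ) ^ (d + 3) := by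
  have h : (1 / 3 : ℝ) ^ (d + 4) = (1 / 3 : ℝ) ^ (d + 3) * (1 / 3) := by
    rw [show d + 4 = (d + 3) + 1 by ring, pow_succ]
  rw [h]
  have h1 : (0 : ℝ) < (1 / 3 : ℝ) ^ (d + 3) := by positivity
  have h2 : (1 / 3 : ℝ) ^ (d + 3) ≤ (1 / 2 : ℝ) ^ (d + 3) :=
    pow_le_pow_left₀ (by norm_num) (by norm_num) _
  linarith

/-- One number of classes. -/
theorem pq_one (hAlp : AlpStmt) (hTcl : TclStmt) (hTou : TouStmt) (d C₀ : ℕ) (γC ε μ κ : ℝ)
    (hd : 1 ≤ d) (hγC : 0 < γC) (hε : 0 < ε) (hμ : 0 < μ) (hμ8 : μ ≤ 1 / 8) (hκ : 0 < κ)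
    (q : ℕ) (hq : 0 < q) (hq2 : 2 * (q - 1) ≤ d + 2) :
    ∃ (ε' : ℝ) (n₀ : ℕ), 0 < ε' ∧ Pq d C₀ γC ε μ κ q ε' n₀ := by
  obtain ⟨M, c, hc, hT⟩ := hTcl d q ((1 / 3 : ℝ) ^ (d + 1)) ((1 / 3 : ℝ) ^ (d + 4)) ε hd hq
    (by positivity) hε (beta_lt d) (beta_lt2 d)
  obtain ⟨γA, nA, hγA, hA⟩ := hAlp (d + 2) M q ((d + 2) * C₀) c κ μ (by omega) hc hκ hμ hμ8 hq
  obtain ⟨ε', nT, hε', hT'⟩ := hT (min γA γC) (lt_min hγA hγC)
  refine ⟨ε', max nA nT, hε', ?_⟩
  intro V _ _ H U i₀ hn hU hDi hEx hsz hInd hClo hinv hP2 hP3 hcr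
  obtain ⟨hTup, hJ, hJA, hsize, hP2', hP3', hmost⟩ := hT' V H U i₀
    ((le_max_right _ _).trans hn) hU hDi hsz hInd hClo hinv hP2 hP3
  have hmin1 : min γA γC ≤ γA := min_le_left _ _
  have hmin2 : min γA γC ≤ γC := min_le_right _ _
  have hcr' := hcr (fun i => tups H (U i) ((1 / 2 : ℝ) ^ (d + 3))) (fun i =>
    (hmost i).trans (mul_le_mul_of_nonneg_right hmin2 (by positivity)))
  have hTour : Tour H (d + 2) (fun i => tups H (U i) ((1 / 2 : ℝ) ^ (d + 3))) i₀
      ((d + 2) * C₀) :=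
    hTou (d + 2) q C₀ ((d + 2) * C₀ + (d + 2)) V H _ i₀ hq2 le_rfl hcr'
  exact hA V H (fun i => tups H (U i) ((1 / 2 : ℝ) ^ (d + 3))) i₀ ((le_max_left _ _).trans hn)
    hU hDi hTup hJ hJA hsize (p2_mono hmin1 hP2') (p3_mono hmin1 hP3') hEx hTour

/-- All numbers of classes up to `Q`. -/
theorem pq_all (hAlp : AlpStmt) (hTcl : TclStmt) (hTou : TouStmt) (d C₀ : ℕ) (γC ε μ κ : ℝ)
    (hd : 1 ≤ d) (hγC : 0 < γC) (hε : 0 < ε) (hμ : 0 < μ) (hμ8 : μ ≤ 1 / 8) (hκ : 0 < κ)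
    (Q : ℕ) : ∃ (ε' : ℝ) (n₀ : ℕ), 0 < ε' ∧ ∀ q ≤ Q, 0 < q → 2 * (q - 1) ≤ d + 2 →
      Pq d C₀ γC ε μ κ q ε' n₀ := by
  induction Q with
  | zero => exact ⟨1, 0, one_pos, fun q hq hq0 => absurd hq (by omega)⟩
  | succ Q ih =>
    obtain ⟨ε₁, n₁, hε₁, h₁⟩ := ih
    by_cases hQ : 2 * ((Q + 1) - 1) ≤ d + 2
    · obtain ⟨ε₂, n₂, hε₂, h₂⟩ := pq_one hAlp hTcl hTou d C₀ γC ε μ κ hd hγC hε hμ hμ8 hκ
        (Q + 1) (Nat.succ_pos _) hQ
      refine ⟨min ε₁ ε₂, max n₁ n₂, lt_min hε₁ hε₂, ?_⟩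
      intro q hq hq0 hq2
      rcases Nat.lt_or_ge q (Q + 1) with hlt | hge
      · exact pq_mono (min_le_left _ _) (le_max_left _ _) (h₁ q (by omega) hq0 hq2)
      · have : q = Q + 1 := le_antisymm hq hge
        subst this
        exact pq_mono (min_le_right _ _) (le_max_right _ _) h₂
    · refine ⟨ε₁, n₁, hε₁, ?_⟩
      intro q hq hq0 hq2
      refine h₁ q ?_ hq0 hq2
      rcases Nat.lt_or_ge q (Q + 1) with hlt | hge
      · omega
      · have : q = Q + 1 := le_antisymm hq hge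
        subst this
        exact absurd hq2 hQ

section
variable {V : Type} [Fintype V] [DecidableEq V]

/-- Monotonicity of the runs. -/
theorem struc_b_mono {H : Finset (Finset V)} {d : ℕ} {X : Finset V} {q : ℕ} {a b : ℕ → ℕ}
    {μ γ : ℝ} (hS : Struc H d X q a b μ γ) (i : ℕ) : ∀ r : ℕ, i + r < q → b i + 2 * r ≤ b (i + r)
  | 0, _ => by simp
  | r + 1, h => by
    have h1 := struc_b_mono hS i r (by omega)
    have h2 := hS.gap (i + r) (by omega)
    have h3 := hS.le (i + r + 1) (by omega)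
    have h4 : i + (r + 1) = i + r + 1 := by ring
    rw [h4]
    omega

theorem struc_b_le {H : Finset (Finset V)} {d : ℕ} {X : Finset V} {q : ℕ} {a b : ℕ → ℕ}
    {μ γ : ℝ} (hS : Struc H d X q a b μ γ) {i j : ℕ} (hij : i ≤ j) (hj : j < q) :
    b i ≤ b j := by
  have := struc_b_mono hS i (j - i) (by omega)
  rw [show i + (j - i) = j by omega] at this
  omega

theorem struc_b_le2 {H : Finset (Finset V)} {d : ℕ} {X : Finset V} {q : ℕ} {a b : ℕ → ℕ}
    {μ γ : ℝ} (hS : Struc H d X q a b μ γ) {i : ℕ} (hi : i < q) : b i ≤ d + 2 :=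
  (struc_b_le hS (show i ≤ q - 1 by omega) (by omega)).trans hS.last2

theorem struc_gap_lt {H : Finset (Finset V)} {d : ℕ} {X : Finset V} {q : ℕ} {a b : ℕ → ℕ}
    {μ γ : ℝ} (hS : Struc H d X q a b μ γ) {i j : ℕ} (hij : i < j) (hj : j < q) :
    b i + 2 ≤ a j := by
  have h1 := hS.gap (j - 1) (by omega)
  rw [show j - 1 + 1 = j by omega] at h1
  have h2 := struc_b_le hS (show i ≤ j - 1 by omega) (by omega)
  omega

theorem struc_q_le {H : Finset (Finset V)} {d : ℕ} {X : Finset V} {q : ℕ} {a b : ℕ → ℕ}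
    {μ γ : ℝ} (hS : Struc H d X q a b μ γ) : 2 * (q - 1) ≤ d + 2 := by
  have h1 := struc_b_mono hS 0 (q - 1) (by have := hS.two_le; omega)
  rw [zero_add] at h1
  have := hS.last2
  omega

/-- The type between two runs is missing. -/
theorem struc_miss {H : Finset (Finset V)} {d : ℕ} {X : Finset V} {q : ℕ} {a b : ℕ → ℕ}
    {μ γ : ℝ} (hS : Struc H d X q a b μ γ) {i : ℕ} (hi : i + 1 < q) :
    b i + 1 ≤ d + 1 ∧ (td H (d + 2) X (b i + 1) : ℝ) ≤ γ * (Fintype.card V : ℝ) ^ (d + 2) := by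
  have hg := hS.gap i hi
  have hl := hS.le (i + 1) hi
  have hb := struc_b_le2 hS hi
  refine ⟨by omega, hS.miss (b i + 1) (by omega) ?_⟩
  rintro i' hi' ⟨h1, h2⟩
  rcases Nat.lt_or_ge i i' with h | h
  · have := struc_gap_lt hS h hi'
    omega
  · have := struc_b_le hS h (show i < q by omega)
    omega

end

theorem alf : AlfStmt := by
  intro hStr hCrs hAlp hTcl hClo hCvr hTim hCsy hTou
  intro k μ κ hk hμ hμ8 hκ
  obtain ⟨d, rfl⟩ : ∃ d, k = d + 2 := ⟨k - 2, by omega⟩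
  have hd : 1 ≤ d := by omega
  obtain ⟨e, he, hStr'⟩ := hStr d ((1 / 3 : ℝ) ^ (d + 4)) hd (by positivity)
  obtain ⟨C₀, hCrs'⟩ := hCrs d hd
  obtain ⟨γC, nC, hγC, hCrs''⟩ := hCrs' ((d + 2) * C₀ + (d + 2))
  have hCsy' := hCsy d C₀ ((d + 2) * C₀ + (d + 2)) nC γC hCrs''
  have hx : ∀ x : ℝ, ∃ (ε' : ℝ) (n : ℕ), 0 < ε' ∧ (0 < x → ∀ q ≤ d + 4, 0 < q →
      2 * (q - 1) ≤ d + 2 → Pq d C₀ γC (e x) μ κ q ε' n) := by
    intro x
    by_cases hx0 : 0 < x
    · obtain ⟨ε', n, h1, h2⟩ := pq_all hAlp hTcl hTou d C₀ γC (e x) μ κ hd hγC (he x hx0) hμ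
        hμ8 hκ (d + 4)
      exact ⟨ε', n, h1, fun _ => h2⟩
    · exact ⟨1, 0, one_pos, fun h => absurd h hx0⟩
  choose E N hE hP using hx
  obtain ⟨S, nS, hSpos, hStr''⟩ := hStr'
    (fun x => min (min γC (1 / 6)) (min (E x / ((d + 2) * (d + 3))) (κ * μ / (4 * (d + 3)))))
    (fun x _ => lt_min (lt_min hγC (by norm_num))
      (lt_min (div_pos (hE x) (by positivity)) (by positivity)))
  refine ⟨max (max nS nC) (max 1 (S.sup N)), ?_⟩
  intro V _ _ H hn hU hDi hEx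
  have hnS : nS ≤ Fintype.card V := ((le_max_left _ _).trans (le_max_left _ _)).trans hn
  have hnC : nC ≤ Fintype.card V := ((le_max_right _ _).trans (le_max_left _ _)).trans hn
  have hn1 : 1 ≤ Fintype.card V := ((le_max_left _ _).trans (le_max_right _ _)).trans hn
  have hnN : S.sup N ≤ Fintype.card V := ((le_max_right _ _).trans (le_max_right _ _)).trans hn
  have hnR : (1 : ℝ) ≤ Fintype.card V := by exact_mod_cast hn1
  obtain ⟨x, hxS, hcase⟩ := hStr'' V H hnS hU hDi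
  have hx0 := hSpos x hxS
  have hNx : N x ≤ Fintype.card V := (Finset.le_sup (f := N) hxS).trans hnN
  have hPx := hP x hx0
  rcases hcase with hInd | ⟨X, q, a, b, hSt, hInd⟩
  · -- case 1: all states are one class
    refine hPx 1 (by omega) one_pos (by omega) V H (fun _ => Set.univ) 0 hNx hU hDi hEx ?_ ?_ ?_
      ?_ ?_ ?_ ?_
    · intro _
      have hcard : (Set.univ : Set (Sta V d)).ncard = Fintype.card V ^ (d + 1) * (d + 2) := by
        rw [Set.ncard_univ, Nat.card_eq_fintype_card, Fintype.card_prod, Fintype.card_fun,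
          Fintype.card_fin, ZMod.card]
      rw [hcard]
      push_cast
      have h1 : (1 / 3 : ℝ) ^ (d + 1) ≤ 1 := pow_le_one₀ (by norm_num) (by norm_num)
      have h2 : (0 : ℝ) ≤ (Fintype.card V : ℝ) ^ (d + 1) := by positivity
      have h3 : (0 : ℝ) ≤ d := by positivity
      nlinarith [mul_le_mul_of_nonneg_right h1 h2, mul_nonneg h2 h3]
    · intro _; exact hInd
    · intro _
      have h0 : (0 : ℝ) ≤ E x * (Fintype.card V : ℝ) ^ (d + 2) :=
        mul_nonneg (hE x).le (by positivity)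
      constructor
      · simpa using h0
      · simpa using h0
    · intro f t t' _; exact Set.mem_univ _
    · have h0 : (0 : ℝ) ≤ E x * (Fintype.card V : ℝ) ^ (d + 1) :=
        mul_nonneg (hE x).le (by positivity)
      have : {g : Fin (d + 1) → V | ¬ ∃ (i : Fin 1) (f : Fin (d + 1) → V) (t : ZMod (d + 2)),
          Finset.univ.image f = Finset.univ.image g ∧
            (f, t) ∈ (fun _ : Fin 1 => (Set.univ : Set (Sta V d))) i} = ∅ := by
        ext g
        simp only [Set.mem_setOf_eq, Set.mem_empty_iff_false, iff_false, not_not]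
        exact ⟨0, g, 0, rfl, Set.mem_univ _⟩
      rw [this]
      simpa using h0
    · have h0 : (0 : ℝ) ≤ E x * (Fintype.card V : ℝ) ^ (d + 2) :=
        mul_nonneg (hE x).le (by positivity)
      have : {e : Fin (d + 2) → V | Finset.univ.image e ∈ H ∧ ¬ ∃ (i : Fin 1)
          (f : Fin (d + 2) → V) (t : ZMod (d + 2)),
          Finset.univ.image f = Finset.univ.image e ∧
            (Fin.init f, t) ∈ (fun _ : Fin 1 => (Set.univ : Set (Sta V d))) i ∧
            (Fin.tail f, t + 1) ∈ (fun _ : Fin 1 => (Set.univ : Set (Sta V d))) i} = ∅ := by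
        ext g
        simp only [Set.mem_setOf_eq, Set.mem_empty_iff_false, iff_false, not_and, not_not]
        intro _
        exact ⟨0, g, 0, rfl, Set.mem_univ _, Set.mem_univ _⟩
      rw [this]
      simpa using h0
    · intro T _ i j hij
      exfalso
      have := i.isLt
      have := j.isLt
      omega
  · -- case 2: the structure
    obtain ⟨γ, hγdef⟩ : ∃ γ : ℝ, γ = min (min γC (1 / 6))
      (min (E x / ((d + 2) * (d + 3))) (κ * μ / (4 * (d + 3)))) := ⟨_, rfl⟩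
    have hSt : Struc H d X q a b x γ := by rw [hγdef]; exact hSt
    have hd3 : (0 : ℝ) < (d : ℝ) + 3 := by positivity
    have hd2 : (0 : ℝ) < (d : ℝ) + 2 := by positivity
    have hγ0 : 0 < γ := by
      rw [hγdef]
      exact lt_min (lt_min hγC (by norm_num))
        (lt_min (div_pos (hE x) (by positivity)) (by positivity))
    have hγ1 : γ ≤ γC := by
      rw [hγdef]; exact (min_le_left _ _).trans (min_le_left _ _)
    have hγ2 : γ ≤ 1 / 6 := by
      rw [hγdef]; exact (min_le_left _ _).trans (min_le_right _ _)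
    have hγ3 : ((d : ℝ) + 2) * (d + 3) * γ ≤ E x := by
      have : γ ≤ E x / ((d + 2) * (d + 3)) := by
        rw [hγdef]; exact (min_le_right _ _).trans (min_le_left _ _)
      rw [le_div_iff₀ (by positivity)] at this
      linarith
    have hγ4 : 2 * ((d : ℝ) + 3) * γ < κ * μ := by
      have : γ ≤ κ * μ / (4 * (d + 3)) := by
        rw [hγdef]; exact (min_le_right _ _).trans (min_le_right _ _)
      rw [le_div_iff₀ (by positivity)] at this
      have h1 : 0 < γ * ((d : ℝ) + 3) := by positivity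
      nlinarith
    have hγ5 : ((d : ℝ) + 3) * γ ≤ E x := by
      refine le_trans ?_ hγ3
      have h1 : 0 ≤ ((d : ℝ) + 3) * γ := by positivity
      have h2 : (0 : ℝ) ≤ d := by positivity
      nlinarith
    have hq2 := hSt.two_le
    have hqk := struc_q_le hSt
    obtain ⟨hCvr1, hCvr4, hCvr5⟩ := hCvr
    obtain ⟨hc1, hc2, hc3⟩ := hCvr1 d V H X q a b x γ hU hγ0.le hγ2 hSt
    obtain ⟨i₀, hi₀, hinv⟩ := hTim d V H X q a b x γ μ κ (by omega) hU hγ0.le hγ2 hγ4 hμ hSt hEx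
    refine hPx q (by omega) (by omega) hqk V H (fun i => cls X d (a i) (b i)) ⟨i₀, hi₀⟩ hNx hU
      hDi hEx ?_ ?_ ?_ ?_ ?_ ?_ ?_
    · intro i; exact hc3 i i.isLt
    · intro i; exact hInd i i.isLt
    · intro i
      exact closed_mono hγ3 (hClo d V H X q a b x γ hU hγ0.le hSt i i.isLt)
    · exact hCvr5 d V X (a i₀) (b i₀) hinv (hSt.le i₀ hi₀)
    · have h0 : (0 : ℝ) ≤ E x * (Fintype.card V : ℝ) ^ (d + 1) :=
        mul_nonneg (hE x).le (by positivity)
      have : {g : Fin (d + 1) → V | ¬ ∃ (i : Fin q) (f : Fin (d + 1) → V) (t : ZMod (d + 2)),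
          Finset.univ.image f = Finset.univ.image g ∧
            (f, t) ∈ (fun i : Fin q => cls X d (a i) (b i)) i} = ∅ := by
        ext g
        simp only [Set.mem_setOf_eq, Set.mem_empty_iff_false, iff_false, not_not]
        obtain ⟨i, hi, f, t, h1, h2⟩ := hc1 g
        exact ⟨⟨i, hi⟩, f, t, h1, h2⟩
      rw [this]
      simpa using h0
    · refine le_trans ?_ (hc2.trans (mul_le_mul_of_nonneg_right hγ5 (by positivity)))
      have hsub : {e : Fin (d + 2) → V | Finset.univ.image e ∈ H ∧ ¬ ∃ (i : Fin q)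
          (f : Fin (d + 2) → V) (t : ZMod (d + 2)),
          Finset.univ.image f = Finset.univ.image e ∧
            (Fin.init f, t) ∈ (fun i : Fin q => cls X d (a i) (b i)) i ∧
            (Fin.tail f, t + 1) ∈ (fun i : Fin q => cls X d (a i) (b i)) i} ⊆
          {e : Fin (d + 2) → V | Finset.univ.image e ∈ H ∧ ¬ ∃ i < q, ∃ (f : Fin (d + 2) → V)
            (t : ZMod (d + 2)), Finset.univ.image f = Finset.univ.image e ∧
            (Fin.init f, t) ∈ cls X d (a i) (b i) ∧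
            (Fin.tail f, t + 1) ∈ cls X d (a i) (b i)} := by
        rintro g ⟨h1, h2⟩
        refine ⟨h1, ?_⟩
        rintro ⟨i, hi, f, t, h3, h4, h5⟩
        exact h2 ⟨⟨i, hi⟩, f, t, h3, h4, h5⟩
      exact_mod_cast Set.ncard_le_ncard hsub (Set.toFinite _)
    · intro T hT
      have key : ∀ i : ℕ, ∀ hi : i + 1 < q,
          Cross H (d + 2) (T ⟨i, by omega⟩) (T ⟨i + 1, hi⟩) C₀ ((d + 2) * C₀ + (d + 2)) ∧
          Cross H (d + 2) (T ⟨i + 1, hi⟩) (T ⟨i, by omega⟩) C₀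
            ((d + 2) * C₀ + (d + 2)) := by
        intro i hi
        obtain ⟨hm1, hm2⟩ := struc_miss hSt hi
        have hg := hSt.gap i hi
        have hbal : |(X.card : ℝ) - Fintype.card V / 2| ≤ γC * Fintype.card V :=
          hSt.bal.trans (mul_le_mul_of_nonneg_right hγ1 (by positivity))
        have htd : (td H (d + 2) X (b i + 1) : ℝ) ≤ γC * (Fintype.card V : ℝ) ^ (d + 2) :=
          hm2.trans (mul_le_mul_of_nonneg_right hγ1 (by positivity))
        have hS1 : ({z : Sta V d | z ∈ can X d (b i + 1 - 1) ∧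
            List.ofFn z.1 ∉ T ⟨i, by omega⟩}.ncard : ℝ) ≤
            γC * (Fintype.card V : ℝ) ^ (d + 1) := by
          refine le_trans ?_ (hT ⟨i, by omega⟩)
          have hsub : {z : Sta V d | z ∈ can X d (b i + 1 - 1) ∧
              List.ofFn z.1 ∉ T ⟨i, by omega⟩} ⊆
              {s : Sta V d | s ∈ (fun i : Fin q => cls X d (a i) (b i)) ⟨i, by omega⟩ ∧
                List.ofFn s.1 ∉ T ⟨i, by omega⟩} := by
            rintro z ⟨h1, h2⟩
            rw [Nat.add_sub_cancel] at h1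
            exact ⟨hCvr4 d V X (a i) (b i) (b i) (hSt.le i (by omega)) le_rfl
              (struc_b_le2 hSt (by omega)) h1, h2⟩
          exact_mod_cast Set.ncard_le_ncard hsub (Set.toFinite _)
        have hS2 : ({z : Sta V d | z ∈ can X d (b i + 1 + 1) ∧
            List.ofFn z.1 ∉ T ⟨i + 1, hi⟩}.ncard : ℝ) ≤
            γC * (Fintype.card V : ℝ) ^ (d + 1) := by
          refine le_trans ?_ (hT ⟨i + 1, hi⟩)
          have hsub : {z : Sta V d | z ∈ can X d (b i + 1 + 1) ∧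
              List.ofFn z.1 ∉ T ⟨i + 1, hi⟩} ⊆
              {s : Sta V d | s ∈ (fun i : Fin q => cls X d (a i) (b i)) ⟨i + 1, hi⟩ ∧
                List.ofFn s.1 ∉ T ⟨i + 1, hi⟩} := by
            rintro z ⟨h1, h2⟩
            refine ⟨hCvr4 d V X (a (i + 1)) (b (i + 1)) (b i + 1 + 1) (by omega)
              (by have := hSt.le (i + 1) hi; omega) (by omega) h1, h2⟩
          exact_mod_cast Set.ncard_le_ncard hsub (Set.toFinite _)
        exact ⟨hCrs'' V H X (b i + 1) _ _ hnC hU hDi (by omega) hm1 hbal htd hS1 hS2,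
          hCsy' V H X (b i + 1) _ _ hnC hU hDi (by omega) hm1 hbal htd hS1 hS2⟩
      intro i j hij
      rcases hij with h | h
      · have hj := j.isLt
        have h' := (key i (by omega)).1
        have e1 : (⟨(i : ℕ), by omega⟩ : Fin q) = i := rfl
        have e2 : (⟨(i : ℕ) + 1, by omega⟩ : Fin q) = j := Fin.ext h
        rw [e1, e2] at h'
        exact h'
      · have hj := i.isLt
        have h' := (key j (by omega)).2
        have e1 : (⟨(j : ℕ), by omega⟩ : Fin q) = j := rfl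
        have e2 : (⟨(j : ℕ) + 1, by omega⟩ : Fin q) = i := Fin.ext h
        rw [e1, e2] at h'
        exact h'

end Pool.Agent.KK.H83
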